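import Pool.Agent.Q284.PS.Stm2

/-!
# Project PS, job BH: the Brun-Hooley sieve over `F[X]` (assembly)
-/

set_option autoImplicit false
set_option linter.unusedSectionVars false

open Finset Polynomial
open Pool.Agent.H341R2.Sharp (Mon mem_Mon)

namespace Pool.Agent.Q58.PS

open Pool.Agent.Q284.PS

open scoped Classical

section

variable {F : Type} [Field F] [Fintype F]

/-- the monic irreducible polynomials of degree at most `y` -/
noncomputable def Pr (F : Type) [Field F] [Fintype F] (y : ℕ) : Finset F[X] := (Icc 1 y).biUnion (PI F)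

/-- the block of a prime -/
noncomputable def blk (y : ℕ) (P : F[X]) : ℕ := Nat.log 2 (y / P.natDegree)

theorem mem_PI {k : ℕ} {P : F[X]} : P ∈ PI F k ↔ P.Monic ∧ P.natDegree = k ∧ Irreducible P := by
  unfold PI
  rw [Finset.mem_filter, mem_Mon, and_assoc]

theorem mem_Pr {y : ℕ} {P : F[X]} : P ∈ Pr F y ↔ P.Monic ∧ Irreducible P ∧ P.natDegree ≤ y := by
  unfold Pr
  rw [Finset.mem_biUnion]
  constructor
  · rintro ⟨m, hm, hP⟩
    rw [mem_PI] at hP
    rw [Finset.mem_Icc] at hm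
    exact ⟨hP.1, hP.2.2, by rw [hP.2.1]; exact hm.2⟩
  · rintro ⟨h1, h2, h3⟩
    refine ⟨P.natDegree, Finset.mem_Icc.2 ⟨h2.natDegree_pos, h3⟩, ?_⟩
    rw [mem_PI]
    exact ⟨h1, rfl, h2⟩

theorem mem_UB {N : ℕ} {d : F[X]} : d ∈ UB F N ↔ d.Monic ∧ d.natDegree ≤ N := by
  unfold UB
  rw [Finset.mem_biUnion]
  constructor
  · rintro ⟨m, hm, hd⟩
    rw [mem_Mon] at hd
    rw [Finset.mem_range] at hm
    exact ⟨hd.1, by omega⟩
  · rintro ⟨h1, h2⟩
    exact ⟨d.natDegree, Finset.mem_range.2 (by omega), mem_Mon.2 ⟨h1, rfl⟩⟩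

theorem blk_iff {y n j : ℕ} (h1 : 1 ≤ n) (h2 : n ≤ y) :
    Nat.log 2 (y / n) = j ↔ y < 2 ^ (j + 1) * n ∧ 2 ^ j * n ≤ y := by
  have hpos : 1 ≤ y / n := (Nat.one_le_div_iff (by omega)).2 h2
  constructor
  · rintro rfl
    have h3 := Nat.lt_pow_succ_log_self (b := 2) (by norm_num) (y / n)
    have h4 := Nat.pow_log_le_self 2 (x := y / n) (by omega)
    exact ⟨(Nat.div_lt_iff_lt_mul (by omega)).1 h3, (Nat.le_div_iff_mul_le (by omega)).1 h4⟩
  · rintro ⟨h3, h4⟩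
    have h5 : 2 ^ j ≤ y / n := (Nat.le_div_iff_mul_le (by omega)).2 h4
    have h6 : y / n < 2 ^ (j + 1) := (Nat.div_lt_iff_lt_mul (by omega)).2 h3
    exact (Nat.log_eq_iff (Or.inr ⟨by norm_num, by omega⟩)).2 ⟨h5, h6⟩

theorem blk_lt {y : ℕ} {P : F[X]} : blk y P < y + 1 := by
  unfold blk
  have h1 := Nat.log_le_self 2 (y / P.natDegree)
  have h2 := Nat.div_le_self y P.natDegree
  omega

theorem dvd_prod {y : ℕ} {D : Finset F[X]} (hD : D ⊆ Pr F y) {P : F[X]} (hP : P ∈ Pr F y) :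
    P ∣ ∏ Q ∈ D, Q ↔ P ∈ D := by
  have hP' := mem_Pr.1 hP
  rw [hP'.2.1.prime.dvd_finsetProd_iff]
  constructor
  · rintro ⟨Q, hQ, hPQ⟩
    have hQ' := mem_Pr.1 (hD hQ)
    have h1 : Associated P Q := hP'.2.1.associated_of_dvd hQ'.2.1 hPQ
    rw [eq_of_monic_of_associated hP'.1 hQ'.1 h1]
    exact hQ
  · intro h
    exact ⟨P, h, dvd_rfl⟩

theorem pf_prod {y : ℕ} {D : Finset F[X]} (hD : D ⊆ Pr F y) :
    (Pr F y).filter (fun P => P ∣ ∏ Q ∈ D, Q) = D := by
  ext P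
  rw [Finset.mem_filter]
  constructor
  · rintro ⟨h1, h2⟩
    exact (dvd_prod hD h1).1 h2
  · intro h
    exact ⟨hD h, (dvd_prod hD (hD h)).2 h⟩

theorem prod_dvd_iff {y : ℕ} {D : Finset F[X]} (hD : D ⊆ Pr F y) (f : F[X]) :
    ∏ Q ∈ D, Q ∣ f ↔ D ⊆ (Pr F y).filter (fun P => P ∣ f) := by
  constructor
  · intro h P hP
    rw [Finset.mem_filter]
    exact ⟨hD hP, (Finset.dvd_prod_of_mem (fun Q => Q) hP).trans h⟩
  · intro h
    apply Finset.prod_dvd_of_coprime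
    · intro P hP Q hQ hne
      have hP' := mem_Pr.1 (hD hP)
      have hQ' := mem_Pr.1 (hD hQ)
      show IsCoprime P Q
      rw [hP'.2.1.coprime_iff_not_dvd]
      intro hPQ
      exact hne (eq_of_monic_of_associated hP'.1 hQ'.1
        (hP'.2.1.associated_of_dvd hQ'.2.1 hPQ))
    · intro P hP
      exact (Finset.mem_filter.1 (h hP)).2

theorem monic_prod {y : ℕ} {D : Finset F[X]} (hD : D ⊆ Pr F y) : (∏ Q ∈ D, Q).Monic :=
  monic_prod_of_monic _ _ fun Q hQ => (mem_Pr.1 (hD hQ)).1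

theorem deg_prod {y : ℕ} {D : Finset F[X]} (hD : D ⊆ Pr F y) :
    (∏ Q ∈ D, Q).natDegree = ∑ Q ∈ D, Q.natDegree :=
  natDegree_prod_of_monic _ _ fun Q hQ => (mem_Pr.1 (hD hQ)).1

/-- a weight on sets of primes as a weight on squarefree polynomials -/
noncomputable def wt (y : ℕ) (w : Finset F[X] → ℝ) (d : F[X]) : ℝ :=
  if d = ∏ Q ∈ (Pr F y).filter (fun P => P ∣ d), Q then w ((Pr F y).filter (fun P => P ∣ d)) else 0

theorem transfer {y N : ℕ} (w : Finset F[X] → ℝ)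
    (hw : ∀ D ⊆ Pr F y, w D ≠ 0 → (∏ Q ∈ D, Q).natDegree ≤ N) (g : F[X] → ℝ) (p : F[X] → Prop)
    (S : Finset F[X]) (hS : S ⊆ Pr F y) (hp : ∀ D ⊆ Pr F y, (p (∏ Q ∈ D, Q) ↔ D ⊆ S)) :
    ∑ d ∈ (UB F N).filter p, wt y w d * g d = ∑ D ∈ S.powerset, w D * g (∏ Q ∈ D, Q) := by
  symm
  refine Finset.sum_bij_ne_zero (fun D _ _ => ∏ Q ∈ D, Q) ?_ ?_ ?_ ?_
  · intro D hD hne
    rw [Finset.mem_powerset] at hD
    have hDP := hD.trans hS
    rw [Finset.mem_filter, mem_UB]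
    exact ⟨⟨monic_prod hDP, hw D hDP (left_ne_zero_of_mul hne)⟩, (hp D hDP).2 hD⟩
  · intro D hD _ D' hD' _ h
    rw [Finset.mem_powerset] at hD hD'
    have h' : ∏ Q ∈ D, Q = ∏ Q ∈ D', Q := h
    rw [← pf_prod (hD.trans hS), ← pf_prod (hD'.trans hS), h']
  · intro d hd hne
    have h1 : wt y w d ≠ 0 := left_ne_zero_of_mul hne
    unfold wt at h1
    by_cases hc : d = ∏ Q ∈ (Pr F y).filter (fun P => P ∣ d), Q
    · rw [if_pos hc] at h1
      have hsub : (Pr F y).filter (fun P => P ∣ d) ⊆ Pr F y := Finset.filter_subset _ _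
      have hpd : (Pr F y).filter (fun P => P ∣ d) ⊆ S := by
        rw [← hp _ hsub, ← hc]
        exact (Finset.mem_filter.1 hd).2
      refine ⟨(Pr F y).filter (fun P => P ∣ d), Finset.mem_powerset.2 hpd, ?_, hc.symm⟩
      rw [← hc]
      exact mul_ne_zero h1 (right_ne_zero_of_mul hne)
    · rw [if_neg hc] at h1
      exact absurd rfl h1
  · intro D hD _
    rw [Finset.mem_powerset] at hD
    have h1 := pf_prod (hD.trans hS)
    unfold wt
    rw [h1, if_pos rfl]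

/-- the closed form of the sum of the degrees -/
theorem sum_closed (b J : ℕ) : ∑ j ∈ range J, (2 * ((b : ℝ) + j) + 1) / 2 ^ j =
    4 * b + 6 - (4 * b + 4 * J + 6) / 2 ^ J := by
  induction J with
  | zero => simp
  | succ J ih =>
    rw [Finset.sum_range_succ, ih, pow_succ]
    push_cast
    field_simp
    ring

theorem deg_bound {y b : ℕ} (hb : 1 ≤ b) {D : Finset F[X]} (hD : D ⊆ Pr F y)
    (h : ∀ j : ℕ, (D.filter (fun P => blk y P = j)).card ≤ 2 * (b + j) + 1) :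
    (∏ Q ∈ D, Q).natDegree ≤ 10 * b * y := by
  rw [deg_prod hD]
  have h1 : ∑ Q ∈ D, (Q.natDegree : ℝ) =
      ∑ j ∈ range (y + 1), ∑ Q ∈ D.filter (fun P => blk y P = j), (Q.natDegree : ℝ) := by
    rw [Finset.sum_fiberwise_of_maps_to]
    intro P _
    exact Finset.mem_range.2 blk_lt
  have h2 : ∀ j ∈ range (y + 1), ∑ Q ∈ D.filter (fun P => blk y P = j), (Q.natDegree : ℝ) ≤
      (2 * ((b : ℝ) + j) + 1) / 2 ^ j * y := by
    intro j _
    have h3 : ∀ Q ∈ D.filter (fun P => blk y P = j), (Q.natDegree : ℝ) ≤ y / 2 ^ j := by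
      intro Q hQ
      rw [Finset.mem_filter] at hQ
      have hQ' := mem_Pr.1 (hD hQ.1)
      have h4 := ((blk_iff hQ'.2.1.natDegree_pos hQ'.2.2).1 hQ.2).2
      rw [le_div_iff₀ (by positivity)]
      have h5 : ((2 ^ j * Q.natDegree : ℕ) : ℝ) ≤ y := by exact_mod_cast h4
      push_cast at h5
      linarith
    refine (Finset.sum_le_sum h3).trans ?_
    rw [Finset.sum_const, nsmul_eq_mul]
    have h6 : (((D.filter (fun P => blk y P = j)).card : ℕ) : ℝ) ≤ 2 * ((b : ℝ) + j) + 1 := by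
      exact_mod_cast h j
    calc (((D.filter (fun P => blk y P = j)).card : ℕ) : ℝ) * (y / 2 ^ j) ≤
        (2 * ((b : ℝ) + j) + 1) * (y / 2 ^ j) := by gcongr
      _ = _ := by ring
  have h3 : ∑ Q ∈ D, (Q.natDegree : ℝ) ≤ (4 * b + 6) * y := by
    rw [h1]
    refine (Finset.sum_le_sum h2).trans ?_
    rw [← Finset.sum_mul, sum_closed]
    have h4 : (0 : ℝ) ≤ (4 * b + 4 * ((y + 1 : ℕ) : ℝ) + 6) / 2 ^ (y + 1) := by positivity
    have h5 : (0 : ℝ) ≤ y := Nat.cast_nonneg y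
    nlinarith
  have h4 : (1 : ℝ) ≤ b := by exact_mod_cast hb
  have h5 : ((∑ Q ∈ D, Q.natDegree : ℕ) : ℝ) ≤ ((10 * b * y : ℕ) : ℝ) := by
    push_cast
    refine h3.trans ?_
    have h6 : (0 : ℝ) ≤ y := Nat.cast_nonneg y
    nlinarith
  exact_mod_cast h5

theorem deg_U {y b : ℕ} (hb : 1 ≤ b) {D : Finset F[X]} (hD : D ⊆ Pr F y)
    (h : nuU (blk y) b D ≠ 0) : (∏ Q ∈ D, Q).natDegree ≤ 10 * b * y := by
  apply deg_bound hb hD
  intro j
  unfold nuU at h
  by_cases hc : ∀ j : ℕ, (D.filter (fun x => blk y x = j)).card ≤ 2 * (b + j)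
  · have := hc j
    omega
  · rw [if_neg hc] at h
    exact absurd rfl h

theorem deg_L {y b J : ℕ} (hb : 1 ≤ b) {D : Finset F[X]} (hD : D ⊆ Pr F y)
    (h : nuL (blk y) b J D ≠ 0) : (∏ Q ∈ D, Q).natDegree ≤ 10 * b * y := by
  by_cases hU : nuU (blk y) b D ≠ 0
  · exact deg_U hb hD hU
  · push Not at hU
    unfold nuL at h
    rw [hU, zero_add] at h
    obtain ⟨j, _, hj⟩ := Finset.exists_ne_zero_of_sum_ne_zero h
    apply deg_bound hb hD
    intro i
    by_cases hc : (D.filter (fun x => blk y x = j)).card = 2 * (b + j) + 1 ∧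
      ∀ i : ℕ, i ≠ j → (D.filter (fun x => blk y x = i)).card ≤ 2 * (b + i)
    · by_cases hij : i = j
      · subst hij
        exact hc.1.le
      · have := hc.2 i hij
        omega
    · rw [if_neg hc] at hj
      exact absurd rfl hj

theorem qq_ge : (2 : ℝ) ≤ qq F := by
  unfold qq
  exact_mod_cast Fintype.one_lt_card (α := F)

theorem disj : Set.PairwiseDisjoint (Set.univ : Set ℕ) (PI F) := by
  intro m _ n _ hmn
  rw [Function.onFun, Finset.disjoint_left]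
  intro P hP hP'
  rw [mem_PI] at hP hP'
  exact hmn (hP.2.1.symm.trans hP'.2.1)

theorem block_sum {y : ℕ} (j : ℕ) :
    ∑ P ∈ (Pr F y).filter (fun P => blk y P = j), 1 / qq F ^ P.natDegree =
      ∑ m ∈ (Icc 1 y).filter (fun m => y < 2 ^ (j + 1) * m ∧ 2 ^ j * m ≤ y),
        ((PI F m).card : ℝ) / qq F ^ m := by
  have h1 : (Pr F y).filter (fun P => blk y P = j) =
      ((Icc 1 y).filter (fun m => y < 2 ^ (j + 1) * m ∧ 2 ^ j * m ≤ y)).biUnion (PI F) := by
    ext P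
    rw [Finset.mem_filter, mem_Pr, Finset.mem_biUnion]
    constructor
    · rintro ⟨⟨h1, h2, h3⟩, h4⟩
      refine ⟨P.natDegree, ?_, mem_PI.2 ⟨h1, rfl, h2⟩⟩
      rw [Finset.mem_filter, Finset.mem_Icc]
      exact ⟨⟨h2.natDegree_pos, h3⟩, (blk_iff h2.natDegree_pos h3).1 h4⟩
    · rintro ⟨m, hm, hP⟩
      rw [Finset.mem_filter, Finset.mem_Icc] at hm
      rw [mem_PI] at hP
      obtain ⟨h1, rfl, h2⟩ := hP
      exact ⟨⟨h1, h2, hm.1.2⟩, (blk_iff hm.1.1 hm.1.2).2 hm.2⟩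
  rw [h1, Finset.sum_biUnion (disj.subset (Set.subset_univ _))]
  refine Finset.sum_congr rfl fun m _ => ?_
  rw [Finset.sum_congr rfl (fun P hP => by rw [(mem_PI.1 hP).2.1] :
    ∀ P ∈ PI F m, 1 / qq F ^ P.natDegree = 1 / qq F ^ m), Finset.sum_const, nsmul_eq_mul]
  ring

theorem prod_all {y : ℕ} : ∏ P ∈ Pr F y, (1 - 1 / qq F ^ P.natDegree) =
    ∏ m ∈ Icc 1 y, (1 - 1 / qq F ^ m) ^ (PI F m).card := by
  unfold Pr
  rw [Finset.prod_biUnion (disj.subset (Set.subset_univ _))]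
  refine Finset.prod_congr rfl fun m _ => ?_
  rw [Finset.prod_congr rfl (fun P hP => by rw [(mem_PI.1 hP).2.1] :
    ∀ P ∈ PI F m, 1 - 1 / qq F ^ P.natDegree = 1 - 1 / qq F ^ m), Finset.prod_const]

end

theorem filt_true {α : Type} (s : Finset α) (i : DecidablePred fun _ : α => True) :
    @Finset.filter α (fun _ => True) i s = s :=
  @Finset.filter_true_of_mem α (fun _ => True) i s (fun _ _ => trivial)

theorem t_BH (hA : S_BHA) (hB : S_BHB) (hM : S_MER) : S_BH := by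
  obtain ⟨C, hC, hB⟩ := hB
  refine ⟨C, hC, ?_⟩
  intro F _ _ y b hy hb
  have hq := qq_ge (F := F)
  have hq0 : 0 < qq F := by linarith
  have hPr : ∀ P ∈ Pr F y, blk y P < y + 1 := fun P _ => blk_lt
  have hx : ∀ P ∈ Pr F y, 0 ≤ 1 / qq F ^ P.natDegree ∧ 1 / qq F ^ P.natDegree ≤ 1 / 2 := by
    intro P hP
    refine ⟨by positivity, ?_⟩
    have h1 := (mem_Pr.1 hP).2.1.natDegree_pos
    apply one_div_le_one_div_of_le (by norm_num)
    calc (2 : ℝ) ≤ qq F := hq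
      _ = qq F ^ 1 := (pow_one _).symm
      _ ≤ qq F ^ P.natDegree := pow_le_pow_right₀ (by linarith) h1
  obtain ⟨b1, b2⟩ := hB F[X] (Pr F y) (blk y) b (y + 1) (fun P => 1 / qq F ^ P.natDegree) hPr hx
    (fun j => by rw [block_sum]; exact (hM F y hy).2 j)
  rw [prod_all] at b1 b2
  have hm := (hM F y hy).1
  have hprod : ∀ D ∈ (Pr F y).powerset, ∏ P ∈ D, 1 / qq F ^ P.natDegree =
      1 / qq F ^ (∏ Q ∈ D, Q).natDegree := by
    intro D hD
    rw [Finset.mem_powerset] at hD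
    rw [deg_prod hD, Finset.prod_div_distrib, Finset.prod_const_one, Finset.prod_pow_eq_pow_sum]
  have t2 : ∑ d ∈ UB F (10 * b * y), wt y (nuU (blk y) b) d / qq F ^ d.natDegree =
      ∑ D ∈ (Pr F y).powerset, nuU (blk y) b D * ∏ P ∈ D, 1 / qq F ^ P.natDegree := by
    have h1 := transfer (y := y) (N := 10 * b * y) (nuU (blk y) b) (fun D hD h => deg_U hb hD h)
      (fun d => 1 / qq F ^ d.natDegree) (fun _ => True) (Pr F y) (Finset.Subset.refl _)
      (fun D hD => by simp [hD])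
    rw [filt_true] at h1
    have h2 : ∑ D ∈ (Pr F y).powerset, nuU (blk y) b D * ∏ P ∈ D, 1 / qq F ^ P.natDegree =
        ∑ D ∈ (Pr F y).powerset, nuU (blk y) b D * (1 / qq F ^ (∏ Q ∈ D, Q).natDegree) :=
      Finset.sum_congr rfl fun D hD => by rw [hprod D hD]
    rw [h2, ← h1]
    refine Finset.sum_congr rfl fun d _ => ?_
    ring
  have t1 : ∑ d ∈ UB F (10 * b * y), wt y (nuL (blk y) b (y + 1)) d / qq F ^ d.natDegree =
      ∑ D ∈ (Pr F y).powerset, nuL (blk y) b (y + 1) D * ∏ P ∈ D, 1 / qq F ^ P.natDegree := by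
    have h1 := transfer (y := y) (N := 10 * b * y) (nuL (blk y) b (y + 1))
      (fun D hD h => deg_L hb hD h)
      (fun d => 1 / qq F ^ d.natDegree) (fun _ => True) (Pr F y) (Finset.Subset.refl _)
      (fun D hD => by simp [hD])
    rw [filt_true] at h1
    have h2 : ∑ D ∈ (Pr F y).powerset, nuL (blk y) b (y + 1) D *
        ∏ P ∈ D, 1 / qq F ^ P.natDegree = ∑ D ∈ (Pr F y).powerset, nuL (blk y) b (y + 1) D *
        (1 / qq F ^ (∏ Q ∈ D, Q).natDegree) :=
      Finset.sum_congr rfl fun D hD => by rw [hprod D hD]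
    rw [h2, ← h1]
    refine Finset.sum_congr rfl fun d _ => ?_
    ring
  have hyR : (0 : ℝ) < y := by exact_mod_cast hy
  refine ⟨wt y (nuL (blk y) b (y + 1)), wt y (nuU (blk y) b), ?_, ?_, ?_⟩
  · intro f hf
    set S := (Pr F y).filter (fun P => P ∣ f) with hS
    have hSP : S ⊆ Pr F y := Finset.filter_subset _ _
    have hR : Rough y f ↔ ¬ S.Nonempty := by
      rw [Finset.not_nonempty_iff_eq_empty, hS, Finset.filter_eq_empty_iff]
      constructor
      · intro h P hP hPf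
        have hP' := mem_Pr.1 hP
        exact absurd (h P hP'.1 hP'.2.1 hPf) (not_lt.2 hP'.2.2)
      · intro h P h1 h2 h3
        by_contra h4
        exact h (mem_Pr.2 ⟨h1, h2, not_lt.1 h4⟩) h3
    obtain ⟨a1, a2⟩ := hA F[X] S (blk y) b (y + 1) (fun P hP => hPr P (hSP hP))
    have u1 := transfer (y := y) (N := 10 * b * y) (nuL (blk y) b (y + 1))
      (fun D hD h => deg_L hb hD h) (fun _ => 1) (fun d => d ∣ f) S hSP
      (fun D hD => prod_dvd_iff hD f)
    have u2 := transfer (y := y) (N := 10 * b * y) (nuU (blk y) b)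
      (fun D hD h => deg_U hb hD h) (fun _ => 1) (fun d => d ∣ f) S hSP
      (fun D hD => prod_dvd_iff hD f)
    simp only [mul_one] at u1 u2
    rw [u1, u2]
    by_cases hc : S.Nonempty
    · rw [if_pos hc] at a1 a2
      rw [if_neg (fun h => hR.1 h hc)]
      exact ⟨a1, a2⟩
    · rw [if_neg hc] at a1 a2
      rw [if_pos (hR.2 hc)]
      exact ⟨a1, a2⟩
  · rw [t1, t2]
    refine b2.trans ?_
    have h1 : 0 ≤ C * Real.exp (-b) := by positivity
    calc C * Real.exp (-b) * ∏ m ∈ Icc 1 y, (1 - 1 / qq F ^ m) ^ (PI F m).card ≤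
        C * Real.exp (-b) * (1 / y) := mul_le_mul_of_nonneg_left hm h1
      _ = C / y * Real.exp (-b) := by ring
  · rw [t2]
    refine b1.trans ?_
    calc C * ∏ m ∈ Icc 1 y, (1 - 1 / qq F ^ m) ^ (PI F m).card ≤
        C * (1 / y) := mul_le_mul_of_nonneg_left hm hC.le
      _ = C / y := by ring

end Pool.Agent.Q58.PS
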