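import Pool.Agent.Q284.PS.Stm2
import Pool.Agent.H341R2.WeilSharp

/-!
# Project PS, job WEIL: character sums of real Hayes characters over the primes
-/

set_option autoImplicit false
set_option linter.unusedSectionVars false
set_option linter.unusedVariables false

open Finset Polynomial
open Pool.Agent.H341R2.Sharp (Mon mem_Mon lam Irr mem_Irr)

namespace Pool.Agent.Q58.PS

open Pool.Agent.Q284.PS

section

variable {F : Type} [Field F]

theorem rev_pow (f : F[X]) (n : ℕ) : (f ^ n).reverse = f.reverse ^ n := by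
  induction n with
  | zero => rw [pow_zero, pow_zero, ← C_1, reverse_C]
  | succ n ih => rw [pow_succ, reverse_mul_of_domain, ih, pow_succ]

theorem hay_pow {Q : F[X]} {l : ℕ} {ψ : F[X] → ℂ} (h : Hay Q l ψ) {f : F[X]} (hf : f.Monic) (n : ℕ) :
    ψ (f ^ n) = ψ f ^ n := by
  induction n with
  | zero => rw [pow_zero, pow_zero, h.one]
  | succ n ih => rw [pow_succ, h.mul _ _ (hf.pow n) hf, ih, pow_succ]

theorem hay_ne {Q : F[X]} {l : ℕ} {ψ : F[X] → ℂ} (h : Hay Q l ψ) {f : F[X]} (hf : f.Monic)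
    (hc : IsCoprime f Q) : ψ f ≠ 0 := by
  intro h0
  have := h.norm f hf hc
  rw [h0, norm_zero] at this
  exact zero_ne_one this

theorem hay_cop {Q : F[X]} {l : ℕ} {ψ : F[X] → ℂ} (h : Hay Q l ψ) {f : F[X]} (hf : f.Monic)
    (h0 : ψ f ≠ 0) : IsCoprime f Q := by
  by_contra hc
  exact h0 (h.zero f hf hc)

theorem sq_cases {z : ℂ} (h : z ^ 2 = 1) : z = 1 ∨ z = -1 := sq_eq_one_iff_of_ne_zero' h
where
  sq_eq_one_iff_of_ne_zero' {z : ℂ} (h : z ^ 2 = 1) : z = 1 ∨ z = -1 := by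
    have : (z - 1) * (z + 1) = 0 := by ring_nf; rw [h]; ring
    rcases mul_eq_zero.1 this with h | h
    · exact Or.inl (sub_eq_zero.1 h)
    · exact Or.inr (eq_neg_of_add_eq_zero_left h)

/-- real Hayes characters in odd characteristic depend only on the class modulo `Q` -/
theorem hay_per [Fintype F] (hF : ringChar F ≠ 2) {Q : F[X]} {l : ℕ} {ψ : F[X] → ℂ}
    (h : Hay Q l ψ) (hr : ∀ f : F[X], f.Monic → ψ f = 0 ∨ ψ f ^ 2 = 1) {f g : F[X]} (hf : f.Monic)
    (hg : g.Monic) (hcf : IsCoprime f Q) (hcg : IsCoprime g Q) (hfg : Q ∣ f - g) : ψ f = ψ g := by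
  obtain ⟨p, hp⟩ := CharP.exists F
  have hpp : Nat.Prime p := CharP.char_is_prime F p
  have : Fact p.Prime := ⟨hpp⟩
  have hp2 : p ≠ 2 := by
    rwa [ringChar.eq F p] at hF
  have hodd : Odd (p ^ l) := (hpp.odd_of_ne_two hp2).pow
  have hone : ∀ u : F[X], u.Monic → IsCoprime u Q → ψ (u ^ (p ^ l)) = ψ u := by
    intro u hu hcu
    rw [hay_pow h hu]
    rcases sq_cases ((hr u hu).resolve_left (hay_ne h hu hcu)) with h1 | h1
    · rw [h1, one_pow]
    · rw [h1, hodd.neg_one_pow]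
  rw [← hone f hf hcf, ← hone g hg hcg]
  apply h.per _ _ (hf.pow _) (hg.pow _)
  · exact hfg.trans (sub_dvd_pow_sub_pow f g _)
  · rw [rev_pow, rev_pow]
    have hcp : CharP F[X] p := inferInstance
    rw [← sub_pow_expChar_pow]
    have hX : X ∣ f.reverse - g.reverse := by
      rw [X_dvd_iff, coeff_sub, coeff_zero_reverse, coeff_zero_reverse, hf.leadingCoeff,
        hg.leadingCoeff, sub_self]
    have hle : l + 1 ≤ p ^ l := Nat.lt_pow_self hpp.one_lt
    exact (pow_dvd_pow X hle).trans (pow_dvd_pow_of_dvd hX _)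

/-- a monic polynomial in the class of `f` -/
noncomputable def md (Q f : F[X]) : F[X] := f %ₘ Q + Q

theorem md_monic {Q : F[X]} (hQ : Q.Monic) (f : F[X]) : (md Q f).Monic := by
  unfold md
  rw [add_comm]
  exact hQ.add_of_left (degree_modByMonic_lt _ hQ)

theorem md_dvd {Q : F[X]} (hQ : Q.Monic) (f : F[X]) : Q ∣ f - md Q f := by
  unfold md
  have h1 := modByMonic_add_div f Q
  exact ⟨f /ₘ Q - 1, by linear_combination (-1 : F[X]) * h1⟩

theorem cop_congr {Q f g : F[X]} (h : Q ∣ f - g) (hf : IsCoprime f Q) : IsCoprime g Q := by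
  obtain ⟨r, hr⟩ := h
  have : g = f + Q * (-r) := by linear_combination -hr
  rw [this]
  exact hf.add_mul_left_left (-r)

end

section lam

variable {F : Type} [Field F] [Fintype F] [DecidableEq F]

theorem lam_one_left (g : F[X]) (hg : g.Monic) : lam (1 : F[X]) g = 1 := by
  unfold lam
  rw [natDegree_one, resultant_one_right]
  simp

theorem lam_mul_left (P D g : F[X]) (hP : P ≠ 0) (hD : D ≠ 0) : lam (P * D) g = lam P g * lam D g := by
  unfold lam
  rw [natDegree_mul hP hD, resultant_mul_right _ _ _ _ le_rfl, map_mul]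

theorem lam_prod (S : Finset F[X]) (hS : ∀ P ∈ S, P ≠ 0) (g : F[X]) (hg : g.Monic) :
    lam (∏ P ∈ S, P) g = ∏ P ∈ S, lam P g := by
  classical
  induction S using Finset.induction_on with
  | empty => rw [Finset.prod_empty, Finset.prod_empty, lam_one_left g hg]
  | insert P S hPS ih =>
    rw [Finset.prod_insert hPS, Finset.prod_insert hPS, lam_mul_left, ih]
    · intro R hR
      exact hS R (Finset.mem_insert_of_mem hR)
    · exact hS P (Finset.mem_insert_self _ _)
    · exact Finset.prod_ne_zero_iff.2 fun R hR => hS R (Finset.mem_insert_of_mem hR)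

theorem lam_abs (D g : F[X]) : |((lam D g : ℤ) : ℝ)| ≤ 1 := by
  unfold lam
  rcases eq_or_ne (resultant g D g.natDegree D.natDegree) 0 with h | h
  · rw [h]; simp
  · rcases quadraticChar_dichotomy h with h1 | h1 <;> rw [h1] <;> simp

end lam

/-- the degrees of different monic prime divisors -/
theorem sum_deg_le {F : Type} [Field F] (S : Finset F[X]) (Q : F[X]) (hQ : Q ≠ 0)
    (hS : ∀ P ∈ S, P.Monic ∧ Irreducible P ∧ P ∣ Q) :
    ∏ P ∈ S, P ∣ Q ∧ ∑ P ∈ S, P.natDegree ≤ Q.natDegree := by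
  have h1 : ∏ P ∈ S, P ∣ Q := by
    apply Finset.prod_dvd_of_coprime
    · intro P hP R hR hne
      show IsCoprime P R
      rw [(hS P hP).2.1.coprime_iff_not_dvd]
      intro hPR
      exact hne (eq_of_monic_of_associated (hS P hP).1 (hS R hR).1
        ((hS P hP).2.1.associated_of_dvd (hS R hR).2.1 hPR))
    · intro P hP
      exact (hS P hP).2.2
  refine ⟨h1, ?_⟩
  rw [← natDegree_prod_of_monic _ _ fun P hP => (hS P hP).1]
  exact natDegree_le_of_dvd h1 hQ

theorem t_WEIL (hA : S_LGA) (hB : S_LGB) : S_WEIL := by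
  classical
  intro F _ _ hF Q l ψ h hr hne k hk
  have hQ := h.monic
  -- the character modulo `Q`
  set κ : F[X] → ℤ := fun f => if ψ (md Q f) = 1 then 1 else -1 with hκ
  have hcm : ∀ f : F[X], IsCoprime f Q → IsCoprime (md Q f) Q := fun f hf =>
    cop_congr (md_dvd hQ f) hf
  have hpm : ∀ f : F[X], IsCoprime f Q → ψ (md Q f) = 1 ∨ ψ (md Q f) = -1 := fun f hf =>
    sq_cases ((hr _ (md_monic hQ f)).resolve_left (hay_ne h (md_monic hQ f) (hcm f hf)))
  have hκψ : ∀ f : F[X], IsCoprime f Q → ((κ f : ℤ) : ℂ) = ψ (md Q f) := by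
    intro f hf
    rcases hpm f hf with h1 | h1
    · simp only [hκ, h1, if_true]
      norm_num
    · have : ψ (md Q f) ≠ 1 := by rw [h1]; norm_num
      simp only [hκ, this, if_false]
      rw [h1]
      norm_num
  have hκ1 : ∀ f : F[X], IsCoprime f Q → κ f = 1 ∨ κ f = -1 := by
    intro f _
    by_cases hc : ψ (md Q f) = 1
    · left
      simp only [hκ, hc, if_true]
    · right
      simp only [hκ, hc, if_false]
  have hκ2 : ∀ f g : F[X], IsCoprime f Q → IsCoprime g Q → κ (f * g) = κ f * κ g := by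
    intro f g hf hg
    have hfg : IsCoprime (f * g) Q := hf.mul_left hg
    have h1 : ψ (md Q (f * g)) = ψ (md Q f * md Q g) := by
      apply hay_per hF h hr (md_monic hQ _) ((md_monic hQ f).mul (md_monic hQ g)) (hcm _ hfg)
        ((hcm f hf).mul_left (hcm g hg))
      obtain ⟨a, ha⟩ := md_dvd hQ (f * g)
      obtain ⟨b, hb⟩ := md_dvd hQ f
      obtain ⟨c, hc⟩ := md_dvd hQ g
      exact ⟨-a + b * g + md Q f * c, by linear_combination -ha + g * hb + md Q f * hc⟩
    rw [h.mul _ _ (md_monic hQ f) (md_monic hQ g), ← hκψ f hf, ← hκψ g hg, ← hκψ _ hfg] at h1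
    exact_mod_cast h1
  have hκ3 : ∀ f g : F[X], IsCoprime f Q → Q ∣ f - g → κ f = κ g := by
    intro f g _ hfg
    have h1 : f %ₘ Q = g %ₘ Q := by
      have := (modByMonic_eq_zero_iff_dvd hQ).2 hfg
      rw [sub_modByMonic, sub_eq_zero] at this
      exact this
    have h2 : md Q f = md Q g := by
      unfold md
      rw [h1]
    show (if ψ (md Q f) = 1 then (1 : ℤ) else -1) = (if ψ (md Q g) = 1 then (1 : ℤ) else -1)
    rw [h2]
  have hψκ : ∀ f : F[X], f.Monic → IsCoprime f Q → ψ f = ((κ f : ℤ) : ℂ) := by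
    intro f hf hc
    rw [hκψ f hc]
    exact hay_per hF h hr hf (md_monic hQ f) hc (hcm f hc) (md_dvd hQ f)
  obtain ⟨S, hS, hSκ⟩ := hA F hF Q κ hQ hκ1 hκ2 hκ3
  have hSne : S.Nonempty := by
    obtain ⟨u, hu, hu0, hu1⟩ := hne
    rw [Finset.nonempty_iff_ne_empty]
    rintro rfl
    have h1 := hψκ u hu (hay_cop h hu hu0)
    rw [hSκ u (hay_cop h hu hu0), Finset.prod_empty] at h1
    exact hu1 (by rw [h1]; norm_num)
  choose! s hs1 hs2 using fun (P : F[X]) (hP : P ∈ S) => hB F hF P (hS P hP).1 (hS P hP).2.1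
  set D := ∏ P ∈ S, P with hD
  set s0 : ℤ := ∏ P ∈ S, s P with hs0
  have hs0' : s0 = 1 ∨ s0 = -1 := by
    rw [hs0]
    apply Finset.prod_induction (p := fun z : ℤ => z = 1 ∨ z = -1)
    · rintro a b (rfl | rfl) (rfl | rfl) <;> simp
    · exact Or.inl rfl
    · exact hs1
  have hψlam : ∀ g : F[X], g.Monic → IsCoprime g Q →
      ψ g = (((s0 ^ g.natDegree * lam D g : ℤ)) : ℂ) := by
    intro g hg hc
    rw [hψκ g hg hc, hSκ g hc, hD, lam_prod S (fun P hP => (hS P hP).1.ne_zero) g hg, hs0,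
      ← Finset.prod_pow, ← Finset.prod_mul_distrib]
    congr 1
    refine Finset.prod_congr rfl fun P hP => hs2 P hP g hg ?_
    intro hPg
    exact (hS P hP).2.1.not_isUnit (hc.isUnit_of_dvd' hPg (hS P hP).2.2)
  obtain ⟨hDQ, hdeg⟩ := sum_deg_le S Q hQ.ne_zero hS
  have hDm : D.Monic := monic_prod_of_monic _ _ fun P hP => (hS P hP).1
  have hDdeg : D.natDegree ≤ Q.natDegree := natDegree_le_of_dvd hDQ hQ.ne_zero
  have hD1 : 1 ≤ D.natDegree := by
    obtain ⟨P, hP⟩ := hSne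
    exact (hS P hP).2.1.natDegree_pos.trans_le
      (natDegree_le_of_dvd (Finset.dvd_prod_of_mem (fun P => P) hP) hDm.ne_zero)
  have hDsq : Squarefree D := by
    rw [hD]
    refine Finset.squarefree_prod_of_pairwise_isCoprime ?_ ?_
    · intro P hP R hR hne'
      show IsRelPrime P R
      apply IsCoprime.isRelPrime
      rw [(hS P hP).2.1.coprime_iff_not_dvd]
      intro hPR
      exact hne' (eq_of_monic_of_associated (hS P hP).1 (hS R hR).1
        ((hS P hP).2.1.associated_of_dvd (hS R hR).2.1 hPR))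
    · intro P hP
      exact (hS P hP).2.1.squarefree
  have hns : ∀ (c : F) (u : F[X]), D ≠ C c * u ^ 2 := by
    intro c u hcu
    obtain ⟨P, hP⟩ := hSne
    have hP' := (hS P hP)
    have h1 : P ∣ D := Finset.dvd_prod_of_mem (fun P => P) hP
    rw [hcu] at h1
    have hc0 : c ≠ 0 := by
      rintro rfl
      rw [C_0, zero_mul] at hcu
      exact hDm.ne_zero hcu
    have h2 : P ∣ u ^ 2 := by
      rcases hP'.2.1.prime.dvd_or_dvd h1 with h2 | h2
      · exact absurd (isUnit_of_dvd_unit h2 (isUnit_C.2 hc0.isUnit)) hP'.2.1.not_isUnit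
      · exact h2
    have h3 : P ∣ u := hP'.2.1.prime.dvd_of_dvd_pow h2
    have h4 : P * P ∣ D := by
      rw [hcu, sq]
      exact (mul_dvd_mul h3 h3).mul_left _
    exact hP'.2.1.not_isUnit (hDsq P h4)
  have hT := (Pool.Agent.H341R2.Sharp.T_bound hF hDm hD1 hns k hk).1
  -- the sum
  have hPD : PD F k = (Irr F k).filter (fun P => P.natDegree ∣ k) := by
    ext P
    unfold PD
    rw [Finset.mem_filter, Finset.mem_filter, mem_Irr, Finset.mem_biUnion]
    constructor
    · rintro ⟨⟨m, hm, hP⟩, h1, h2⟩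
      rw [mem_Mon] at hP
      rw [Finset.mem_range] at hm
      exact ⟨⟨hP.1, h1, by omega⟩, h2⟩
    · rintro ⟨⟨h1, h2, h3⟩, h4⟩
      exact ⟨⟨P.natDegree, Finset.mem_range.2 (by omega), mem_Mon.2 ⟨h1, rfl⟩⟩, h2, h4⟩
  have hmem : ∀ P ∈ PD F k, P.Monic ∧ Irreducible P ∧ P.natDegree ∣ k := by
    intro P hP
    rw [hPD, Finset.mem_filter, mem_Irr] at hP
    exact ⟨hP.1.1, hP.1.2.1, hP.2⟩
  have hterm : ∀ P ∈ PD F k, (P.natDegree : ℂ) * ψ P ^ (k / P.natDegree) =
      ((s0 ^ k : ℤ) : ℂ) * ((((P.natDegree : ℤ) * lam D P ^ (k / P.natDegree) -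
        (if P ∣ Q then (P.natDegree : ℤ) * lam D P ^ (k / P.natDegree) else 0) : ℤ)) : ℂ) := by
    intro P hP
    obtain ⟨h1, h2, h3⟩ := hmem P hP
    have hdk : P.natDegree * (k / P.natDegree) = k := Nat.mul_div_cancel' h3
    have hpos : k / P.natDegree ≠ 0 := by
      intro h0
      rw [h0, mul_zero] at hdk
      omega
    by_cases hPQ : P ∣ Q
    · rw [if_pos hPQ, sub_self]
      have hnc : ¬ IsCoprime P Q := fun hc => h2.not_isUnit (hc.isUnit_of_dvd' dvd_rfl hPQ)
      rw [h.zero P h1 hnc, zero_pow hpos]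
      simp
    · rw [if_neg hPQ, sub_zero]
      have hc : IsCoprime P Q := h2.coprime_iff_not_dvd.2 hPQ
      rw [hψlam P h1 hc]
      push_cast
      rw [mul_pow, ← pow_mul, hdk]
      ring
  rw [Finset.sum_congr rfl hterm, ← Finset.mul_sum, ← Int.cast_sum, norm_mul]
  have hs0n : ‖((s0 ^ k : ℤ) : ℂ)‖ = 1 := by
    rcases hs0' with h1 | h1 <;> rw [h1] <;> simp
  rw [hs0n, one_mul, Finset.sum_sub_distrib, ← Finset.sum_filter]
  have hsum1 : ∑ P ∈ PD F k, (P.natDegree : ℤ) * lam D P ^ (k / P.natDegree) =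
      Pool.Agent.H341R2.Sharp.T D k := by
    unfold Pool.Agent.H341R2.Sharp.T
    rw [hPD]
  rw [hsum1]
  have hsum2 : |((∑ P ∈ (PD F k).filter (fun P => P ∣ Q),
      (P.natDegree : ℤ) * lam D P ^ (k / P.natDegree) : ℤ) : ℝ)| ≤ Q.natDegree := by
    rw [Int.cast_sum]
    refine (Finset.abs_sum_le_sum_abs _ _).trans ?_
    have h1 := (sum_deg_le ((PD F k).filter (fun P => P ∣ Q)) Q hQ.ne_zero (fun P hP => by
      rw [Finset.mem_filter] at hP
      obtain ⟨h1, h2, h3⟩ := hmem P hP.1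
      exact ⟨h1, h2, hP.2⟩)).2
    refine le_trans ?_ (Nat.cast_le (α := ℝ).2 h1)
    rw [Nat.cast_sum]
    refine Finset.sum_le_sum fun P _ => ?_
    push_cast
    rw [abs_mul, abs_pow, Nat.abs_cast]
    exact mul_le_of_le_one_right (Nat.cast_nonneg _) (pow_le_one₀ (abs_nonneg _) (lam_abs D P))
  have hqk : Real.sqrt (Fintype.card F) ^ k = qq F ^ ((k : ℝ) / 2) := by
    unfold qq
    rw [Real.sqrt_eq_rpow, ← Real.rpow_natCast, ← Real.rpow_mul (Nat.cast_nonneg _)]
    congr 1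
    ring
  rw [hqk] at hT
  have hq1 : (1 : ℝ) ≤ qq F ^ ((k : ℝ) / 2) := by
    apply Real.one_le_rpow
    · unfold qq
      exact_mod_cast Fintype.card_pos (α := F)
    · positivity
  have hnorm : ∀ z : ℤ, ‖(z : ℂ)‖ = |(z : ℝ)| := by
    intro z
    rw [← Complex.ofReal_intCast, Complex.norm_real, Real.norm_eq_abs]
  rw [hnorm]
  push_cast
  refine (abs_sub _ _).trans ?_
  push_cast at hsum2
  have hDQ' : (D.natDegree : ℝ) ≤ Q.natDegree := by exact_mod_cast hDdeg
  have hQ0 : (0 : ℝ) ≤ Q.natDegree := Nat.cast_nonneg _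
  calc |((Pool.Agent.H341R2.Sharp.T D k : ℤ) : ℝ)| + _ ≤
      5 * D.natDegree * qq F ^ ((k : ℝ) / 2) + Q.natDegree := add_le_add hT hsum2
    _ ≤ 5 * Q.natDegree * qq F ^ ((k : ℝ) / 2) + Q.natDegree * qq F ^ ((k : ℝ) / 2) := by
        have h1 : (Q.natDegree : ℝ) ≤ Q.natDegree * qq F ^ ((k : ℝ) / 2) :=
          le_mul_of_one_le_right hQ0 hq1
        have h2 : 5 * (D.natDegree : ℝ) * qq F ^ ((k : ℝ) / 2) ≤
            5 * Q.natDegree * qq F ^ ((k : ℝ) / 2) := by gcongr
        linarith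
    _ = 6 * Q.natDegree * qq F ^ ((k : ℝ) / 2) := by ring

end Pool.Agent.Q58.PS
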